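import Pool.Agent.Helper25.GF.Goals

/-!
# Project GF (MP_766b49_co): packet PIN
-/

set_option autoImplicit false

namespace Pool.Agent.Helper46.GF

open Finset Pool.Agent.Helper25.GF
open scoped Classical

theorem idp_iff {d n : ℕ} (ω : Om d n) (I : Finset ℕ) :
    Idp ω I ↔ ∀ t : Fin n, (t : ℕ) + 1 ∈ I → ∀ j : Fin d, ((ω t j : Fin _) : ℕ) ∉ I := by
  have hval : ∀ (s t : Fin n) (j : Fin d), s = t →
      ((ω s j : Fin _) : ℕ) = ((ω t j : Fin _) : ℕ) := by
    rintro s t j rfl
    rfl
  constructor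
  · intro h t ht j
    apply h _ ht
    unfold ch
    have h1 : 0 < (t : ℕ) + 1 ∧ (t : ℕ) + 1 ≤ n := ⟨by omega, by have := t.2; omega⟩
    rw [dif_pos h1, Finset.mem_image]
    refine ⟨j, Finset.mem_univ _, ?_⟩
    apply hval
    apply Fin.ext
    simp
  · intro h b hb a ha
    unfold ch at ha
    split_ifs at ha with h1
    · rw [Finset.mem_image] at ha
      obtain ⟨j, -, rfl⟩ := ha
      apply h ⟨b - 1, by omega⟩
      have : b - 1 + 1 = b := by omega
      simp only [this]
      exact hb
    · simp at ha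

theorem card_avoid (I : Finset ℕ) (t : ℕ) :
    ((univ : Finset (Fin (t + 1))).filter (fun v : Fin (t + 1) => (v : ℕ) ∉ I)).card = t + 1 - kk I (t + 1) := by
  have h1 : ((univ : Finset (Fin (t + 1))).filter (fun v : Fin (t + 1) => (v : ℕ) ∈ I)).card = kk I (t + 1) := by
    unfold kk
    rw [← Finset.card_map Fin.valEmbedding]
    congr 1
    ext x
    simp only [Finset.mem_map, Finset.mem_filter, Finset.mem_univ, true_and,
      Fin.valEmbedding_apply]
    constructor
    · rintro ⟨v, hv, rfl⟩
      exact ⟨hv, v.2⟩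
    · rintro ⟨hx, hlt⟩
      exact ⟨⟨x, hlt⟩, hx, rfl⟩
  have h2 := Finset.card_filter_add_card_filter_not (s := (univ : Finset (Fin (t + 1))))
    (fun v : Fin (t + 1) => (v : ℕ) ∈ I)
  rw [h1, Finset.card_univ, Fintype.card_fin] at h2
  omega

theorem kk_le (I : Finset ℕ) (t : ℕ) : kk I t ≤ t := by
  unfold kk
  calc (I.filter (· < t)).card ≤ (range t).card := by
        apply Finset.card_le_card
        intro x hx
        rw [Finset.mem_filter] at hx
        exact Finset.mem_range.2 hx.2
    _ = t := Finset.card_range t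

theorem pin : PIN := by
  intro d n I hI
  have hset : (univ.filter (fun ω : Om d n => Idp ω I)) =
      Fintype.piFinset (fun t : Fin n => if (t : ℕ) + 1 ∈ I then
        Fintype.piFinset (fun _ : Fin d =>
          (univ : Finset (Fin ((t : ℕ) + 1))).filter
            (fun v : Fin ((t : ℕ) + 1) => (v : ℕ) ∉ I)) else univ) := by
    ext ω
    rw [Finset.mem_filter, Fintype.mem_piFinset, idp_iff]
    simp only [Finset.mem_univ, true_and]
    apply forall_congr'
    intro t
    by_cases ht : (t : ℕ) + 1 ∈ I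
    · rw [if_pos ht, Fintype.mem_piFinset]
      simp only [Finset.mem_filter, Finset.mem_univ, true_and, ht, true_imp_iff]
    · rw [if_neg ht]
      simp [ht]
  have hcard : (((univ.filter (fun ω : Om d n => Idp ω I)).card : ℕ) : ℝ) =
      ∏ t : Fin n, (if (t : ℕ) + 1 ∈ I then
        (((t : ℕ) + 1 - kk I ((t : ℕ) + 1) : ℕ) : ℝ) ^ d else (((t : ℕ) + 1 : ℕ) : ℝ) ^ d) := by
    rw [hset, Fintype.card_piFinset]
    push_cast
    apply Finset.prod_congr rfl
    intro t _
    split_ifs with ht
    · rw [Fintype.card_piFinset]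
      simp only [card_avoid, Finset.prod_const, Finset.card_univ, Fintype.card_fin]
      push_cast
      rfl
    · rw [Finset.card_univ, Fintype.card_fun, Fintype.card_fin, Fintype.card_fin]
      push_cast
      rfl
  have hcardO : ((Fintype.card (Om d n) : ℕ) : ℝ) = ∏ t : Fin n, (((t : ℕ) + 1 : ℕ) : ℝ) ^ d := by
    rw [Fintype.card_pi]
    push_cast
    apply Finset.prod_congr rfl
    intro t _
    rw [Fintype.card_fun, Fintype.card_fin, Fintype.card_fin]
    push_cast
    rfl
  have hEn : En I (n + 1) = ∑ t : Fin n, (if (t : ℕ) + 1 ∈ I then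
      (kk I ((t : ℕ) + 1) : ℝ) / (((t : ℕ) + 1 : ℕ) : ℝ) else 0) := by
    unfold En
    rw [Fin.sum_univ_eq_sum_range (fun t => if t + 1 ∈ I then
      (kk I (t + 1) : ℝ) / ((t + 1 : ℕ) : ℝ) else 0) n, ← Finset.sum_filter]
    symm
    apply Finset.sum_bij (fun t _ => t + 1)
    · intro t ht
      rw [Finset.mem_filter, Finset.mem_range] at ht
      rw [Finset.mem_filter]
      exact ⟨ht.2, by omega, by omega⟩
    · intro a _ b _ hab
      omega
    · intro b hb
      rw [Finset.mem_filter] at hb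
      refine ⟨b - 1, ?_, by omega⟩
      rw [Finset.mem_filter, Finset.mem_range]
      have h1 : b - 1 + 1 = b := by omega
      rw [h1]
      exact ⟨by omega, hb.1⟩
    · intro t _
      rfl
  unfold Pr
  have hmain : (((univ.filter (fun ω : Om d n => Idp ω I)).card : ℕ) : ℝ) ≤
      Real.exp (- (d * En I (n + 1))) * ((Fintype.card (Om d n) : ℕ) : ℝ) := by
    have hexp : Real.exp (- (d * En I (n + 1))) = ∏ t : Fin n, Real.exp (if (t : ℕ) + 1 ∈ I then
      - (d * ((kk I ((t : ℕ) + 1) : ℝ) / (((t : ℕ) + 1 : ℕ) : ℝ))) else 0) := by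
      rw [← Real.exp_sum]
      congr 1
      rw [hEn, Finset.mul_sum, ← Finset.sum_neg_distrib]
      apply Finset.sum_congr rfl
      intro t _
      split_ifs <;> simp
    rw [hcard, hcardO, hexp, ← Finset.prod_mul_distrib]
    apply Finset.prod_le_prod
    · intro t _
      split_ifs <;> positivity
    · intro t _
      split_ifs with ht
      · have hpos : (0 : ℝ) < (((t : ℕ) + 1 : ℕ) : ℝ) := by positivity
        have hle := kk_le I ((t : ℕ) + 1)
        rw [Nat.cast_sub hle]
        have h1 : ((((t : ℕ) + 1 : ℕ) : ℝ) - kk I ((t : ℕ) + 1)) ≤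
            Real.exp (- ((kk I ((t : ℕ) + 1) : ℝ) / (((t : ℕ) + 1 : ℕ) : ℝ))) *
              (((t : ℕ) + 1 : ℕ) : ℝ) := by
          have h2 := Real.add_one_le_exp
            (- ((kk I ((t : ℕ) + 1) : ℝ) / (((t : ℕ) + 1 : ℕ) : ℝ)))
          have h3 := mul_le_mul_of_nonneg_right h2 hpos.le
          refine le_trans (le_of_eq ?_) h3
          field_simp
          ring
        have h0 : 0 ≤ ((((t : ℕ) + 1 : ℕ) : ℝ) - kk I ((t : ℕ) + 1)) := by
          have : (kk I ((t : ℕ) + 1) : ℝ) ≤ (((t : ℕ) + 1 : ℕ) : ℝ) := by exact_mod_cast hle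
          linarith
        have h4 := pow_le_pow_left₀ h0 h1 d
        rw [mul_pow, ← Real.exp_nat_mul] at h4
        refine le_trans h4 (le_of_eq ?_)
        congr 2
        ring
      · rw [Real.exp_zero, one_mul]
  have hOpos : (0 : ℝ) < ((Fintype.card (Om d n) : ℕ) : ℝ) := by
    rw [hcardO]
    apply Finset.prod_pos
    intro t _
    positivity
  rw [div_le_iff₀ hOpos]
  convert hmain

end Pool.Agent.Helper46.GF
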